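import Pool.Agent.H37.CNK.Stmts

/-!
# Row YIS of the board cnk: generators of `N` modulo `⟨z⟩` and the functions `y_i`
-/

set_option autoImplicit false

namespace Pool.CND

open Finset

namespace YISaux

/-- the kernel in `N` of a function which is additive on `N` -/
def ker {G : Type} [Group G] {p : ℕ} (N : Subgroup G) (χ : G → ZMod p)
    (h : ∀ a ∈ N, ∀ b ∈ N, χ (a * b) = χ a + χ b) : Subgroup G where
  carrier := {a | a ∈ N ∧ χ a = 0}
  mul_mem' := by
    rintro a b ⟨ha, ha'⟩ ⟨hb, hb'⟩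
    exact ⟨N.mul_mem ha hb, by rw [h a ha b hb, ha', hb', add_zero]⟩
  one_mem' := by
    refine ⟨N.one_mem, ?_⟩
    have := h 1 N.one_mem 1 N.one_mem
    rw [mul_one] at this
    exact left_eq_add.1 this
  inv_mem' := by
    rintro a ⟨ha, ha'⟩
    refine ⟨N.inv_mem ha, ?_⟩
    have h1 : χ 1 = 0 := by
      have := h 1 N.one_mem 1 N.one_mem
      rw [mul_one] at this
      exact left_eq_add.1 this
    have := h a ha a⁻¹ (N.inv_mem ha)
    rw [mul_inv_cancel, h1, ha', zero_add] at this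
    exact this.symm

theorem mem_ker {G : Type} [Group G] {p : ℕ} (N : Subgroup G) (χ : G → ZMod p)
    (h : ∀ a ∈ N, ∀ b ∈ N, χ (a * b) = χ a + χ b) (a : G) :
    a ∈ ker N χ h ↔ a ∈ N ∧ χ a = 0 := Iff.rfl

theorem card_ker {G : Type} [Group G] [Finite G] {p : ℕ} (hp : p.Prime) (N : Subgroup G)
    (χ : G → ZMod p) (h : ∀ a ∈ N, ∀ b ∈ N, χ (a * b) = χ a + χ b) (g : G) (hg : g ∈ N)
    (hg1 : χ g = 1) : Nat.card N = p * Nat.card (ker N χ h) := by
  haveI : Fact p.Prime := ⟨hp⟩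
  let φ : N →* Multiplicative (ZMod p) :=
    { toFun := fun a => Multiplicative.ofAdd (χ a)
      map_one' := by
        have h1 : χ 1 = 0 := ((mem_ker N χ h 1).1 (ker N χ h).one_mem).2
        show Multiplicative.ofAdd (χ ((1 : N) : G)) = 1
        rw [OneMemClass.coe_one, h1]
        rfl
      map_mul' := by
        intro a b
        show Multiplicative.ofAdd (χ ((a * b : N) : G)) = _
        rw [Subgroup.coe_mul, h a a.2 b b.2]
        rfl }
  have hφ : ∀ a : N, φ a = Multiplicative.ofAdd (χ a) := fun _ => rfl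
  have hsurj : Function.Surjective φ := by
    intro c
    obtain ⟨m, hm⟩ : ∃ m : ℕ, (m : ZMod p) = Multiplicative.toAdd c :=
      ⟨(Multiplicative.toAdd c).val, ZMod.natCast_zmod_val _⟩
    refine ⟨(⟨g, hg⟩ : N) ^ m, ?_⟩
    rw [map_pow, hφ, ← ofAdd_nsmul, hg1, nsmul_eq_mul, mul_one, hm]
    rfl
  have h1 : Nat.card φ.ker * φ.ker.index = Nat.card N := φ.ker.card_mul_index
  have h2 : φ.ker.index = p := by
    rw [Subgroup.index_ker, MonoidHom.range_eq_top.2 hsurj]
    rw [Nat.card_congr (Subgroup.topEquiv.toEquiv)]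
    show Nat.card (ZMod p) = p
    exact Nat.card_zmod p
  have h3 : Nat.card φ.ker = Nat.card (ker N χ h) := by
    refine Nat.card_congr ⟨fun a => ⟨(a : N), (a : N).2, ?_⟩, fun a => ⟨⟨a, a.2.1⟩, ?_⟩, ?_, ?_⟩
    · have := a.2
      rw [MonoidHom.mem_ker, hφ] at this
      exact Multiplicative.ofAdd.injective (this.trans ofAdd_zero.symm)
    · rw [MonoidHom.mem_ker, hφ]
      show Multiplicative.ofAdd (χ (a : G)) = 1
      rw [a.2.2]
      rfl
    · intro a
      rfl
    · intro a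
      rfl
  rw [← h1, h2, h3, mul_comm]

end YISaux

open YISaux in
theorem yis_thm (h1 : S_OBS) (h2 : S_CHY) (h3 : S_DVV) (h4 : S_YIC) (_h5 : S_BAS) : S_YIS := by
  classical
  intro p k L G _ _ _ _ _ _ ρ t P Δ z x N C₁ hM hD hρ
  have hcv := hM.cv
  have hp : p.Prime := hcv.pr
  haveI : Fact p.Prime := ⟨hp⟩
  haveI : CharP k p := hcv.ch
  obtain ⟨d, n, χ, hnN, hn0, hnp, hadd, hχn, hχz, hcl⟩ := h1 p G N z x hp hM.odd hM.oz hM.cen
    hM.zN hM.xN hM.xz hM.pow (fun g _ a ha => hM.com g a ha)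
  have hN := hM.nor
  -- `χ i` kills the powers of `z`
  have hzpow : ∀ i : Fin (d + 1), ∀ c ∈ Subgroup.zpowers z, χ i c = 0 := by
    intro i c hc
    have hz : z ∈ ker N (χ i) (hadd i) := ⟨hM.zN, hχz i⟩
    have : Subgroup.zpowers z ≤ ker N (χ i) (hadd i) := by
      rw [Subgroup.zpowers_le]
      exact hz
    exact (this hc).2
  have hzN : Subgroup.zpowers z ≤ N := by
    rw [Subgroup.zpowers_le]
    exact hM.zN
  have hBn : ∀ i : Fin (d + 1), (ker N (χ i) (hadd i)).Normal := by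
    intro i
    refine ⟨?_⟩
    rintro a ⟨ha, ha'⟩ g
    refine ⟨hN.conj_mem a ha g, ?_⟩
    have hc := hM.com g a ha
    have he : g * a * g⁻¹ = (g * a * g⁻¹ * a⁻¹) * a := by group
    rw [he, hadd i _ (hzN hc) a ha, hzpow i _ hc, ha', add_zero]
  have hBle : ∀ i : Fin (d + 1), ker N (χ i) (hadd i) ≤ N := fun i a ha => ha.1
  have hzB : ∀ i : Fin (d + 1), z ∈ ker N (χ i) (hadd i) := fun i => ⟨hM.zN, hχz i⟩
  have hχ1 : ∀ i : Fin (d + 1), χ i (n i) = 1 := fun i => by rw [hχn, if_pos rfl]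
  have hcard : ∀ i : Fin (d + 1), Nat.card N = p * Nat.card (ker N (χ i) (hadd i)) := fun i =>
    card_ker hp N (χ i) (hadd i) (n i) (hnN i) (hχ1 i)
  have hy : ∀ i : Fin (d + 1), ∃ (y : L) (u : ℕ), (∀ b ∈ ker N (χ i) (hadd i), ρ b y = y) ∧
      (∀ a ∈ N, ρ a y = y + algebraMap k L (fp k (χ i a))) ∧
      P.ord y = -((Nat.card (ker N (χ i) (hadd i)) * u : ℕ) : ℤ) ∧ ¬ p ∣ u ∧ 1 ≤ u ∧
      ∀ g ∈ N, g ∉ ker N (χ i) (hadd i) →
        sm (fun g => P.b (ρ g)) {x | g⁻¹ * x ∈ ker N (χ i) (hadd i)} =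
          Nat.card (ker N (χ i) (hadd i)) * u := fun i =>
    h2 p k L G ρ t P N (ker N (χ i) (hadd i)) (χ i) hcv hN (hBn i) (hBle i) (hadd i)
      (fun a ha => ⟨fun h => ⟨ha, h⟩, fun h => h.2⟩)
      ⟨n i, hnN i, by rw [hχ1 i]; exact one_ne_zero⟩
  choose y u hyB hya hyo hpu hu1 hsm using hy
  have hB0 : ∀ i : Fin (d + 1), 0 < Nat.card (ker N (χ i) (hadd i)) := fun i => Nat.card_pos
  have hyn : ∀ i j : Fin (d + 1), ρ (n i) (y j) = y j + if i = j then 1 else 0 := by
    intro i j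
    rw [hya j (n i) (hnN i), hχn i j]
    split_ifs with h
    · have : fp k (1 : ZMod p) = 1 := map_one _
      rw [this, map_one]
    · have : fp k (0 : ZMod p) = 0 := map_zero _
      rw [this, map_zero]
  have hyne : ∀ i, y i ≠ 0 := by
    intro i h
    have := hyn i i
    rw [if_pos rfl, h, map_zero, zero_add] at this
    exact zero_ne_one this
  have hYIC := fun i : Fin (d + 1) => h4 p k L G ρ t P z N (ker N (χ i) (hadd i)) (u i) C₁ hcv
    hM.oz hM.cen hN (hBn i) (hBle i) (hzB i) (hcard i)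
    (fun g hg hgB => hsm i g hg hgB) hM.le
  have hx0 : x ∉ ker N (χ 0) (hadd 0) := by
    intro hx
    have h5 := hx.2
    rw [← hn0, hχ1 0] at h5
    exact one_ne_zero h5
  have hu0 : (Nat.card N : ℤ) * u 0 + So P ρ N = C₁ := (hYIC 0).2.2 ⟨x, hM.xN, hx0, hM.eq⟩
  have hcard' : ∀ i : Fin (d + 1), (Nat.card N : ℤ) = p * Nat.card (ker N (χ i) (hadd i)) := by
    intro i
    have := hcard i
    exact_mod_cast this
  have hpo : ∀ i, (p : ℤ) * P.ord (y i) = -((Nat.card N : ℤ) * u i) := by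
    intro i
    rw [hyo i, hcard' i]
    push_cast
    ring
  -- the derivation
  have hDV : ∀ i, P.Ge (Δ (y i)) (-((Nat.card N : ℤ) * u i + So P ρ N)) ∧ Δ (y i) ≠ 0 ∧
      P.ord (Δ (y i)) = -((Nat.card N : ℤ) * u i + So P ρ N) := by
    intro i
    obtain ⟨m, hm, hge, hne⟩ := h3 p k L G ρ t P Δ (ker N (χ i) (hadd i)) hcv hD hρ (hBn i) (y i)
      (hyne i) (hyB i)
    have hmu : m = -(u i : ℤ) := by
      have hc : (Nat.card (ker N (χ i) (hadd i)) : ℤ) ≠ 0 := by
        exact_mod_cast (hB0 i).ne'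
      apply mul_left_cancel₀ hc
      rw [← hm, hyo i]
      push_cast
      ring
    have hval : P.ord (y i) - So P ρ (ker N (χ i) (hadd i)) =
        -((Nat.card N : ℤ) * u i + So P ρ N) := by
      rw [(hYIC i).1, hyo i, hcard' i]
      push_cast
      ring
    rw [hval] at hge hne
    refine ⟨hge, hne ?_⟩
    rw [hmu, dvd_neg, Int.natCast_dvd_natCast]
    exact hpu i
  refine ⟨d, n, y, (u 0 : ℤ), ?_⟩
  refine ⟨hnN, hn0, hnp, ?_, ?_, hyn, hyne, ?_, ?_, ?_, ?_, hpo 0, ?_, ?_, ?_⟩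
  · intro v hv hvn a ha
    have hle : Subgroup.closure (insert z (Set.range n)) ≤
        ({ carrier := {a | ρ a v = v}
           mul_mem' := by
            intro a b (ha : ρ a v = v) (hb : ρ b v = v)
            show ρ (a * b) v = v
            rw [map_mul, AlgEquiv.mul_apply, hb, ha]
           one_mem' := by
            show ρ 1 v = v
            rw [map_one, AlgEquiv.one_apply]
           inv_mem' := by
            intro a (ha : ρ a v = v)
            show ρ a⁻¹ v = v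
            have h6 : ρ a⁻¹ (ρ a v) = v := by
              rw [← AlgEquiv.mul_apply, ← map_mul, inv_mul_cancel, map_one, AlgEquiv.one_apply]
            rwa [ha] at h6 } : Subgroup G) := by
      rw [Subgroup.closure_le]
      rintro a (rfl | ⟨i, rfl⟩)
      · exact hv
      · exact hvn i
    exact hle (hcl a ha)
  · intro i
    exact hyB i z (hzB i)
  · intro i
    rw [hyo i]
    have : 0 < Nat.card (ker N (χ i) (hadd i)) * u i := Nat.mul_pos (hB0 i) (hu1 i)
    have : (0 : ℤ) < ((Nat.card (ker N (χ i) (hadd i)) * u i : ℕ) : ℤ) := by exact_mod_cast this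
    linarith
  · exact_mod_cast hu1 0
  · linarith
  · rw [Int.natCast_dvd_natCast]
    exact hpu 0
  · intro i
    rw [hpo i]
    have := (hYIC i).2.1
    linarith
  · have := (hDV 0).2
    rw [hu0] at this
    exact this
  · intro i
    refine P.ge_mono (hDV i).1 ?_
    have := (hYIC i).2.1
    linarith

end Pool.CND
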